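import Pool.Agent.H385R4.AE8g

/-!
For almost all primitive Dirichlet characters at least 83.625 percent of the zeros of the
L-function are distinct.
-/

namespace Pool.Agent.Results.MP_f259ea_nt.AlmostAllDistinct8362

/-- The Dirichlet L-function of a character modulo `q` (the value for `q = 0` is never used). -/
noncomputable def Lfun (q : ℕ) (χ : DirichletCharacter ℂ q) : ℂ → ℂ :=
  if h : q = 0 then 0 else
    haveI : NeZero q := ⟨h⟩
    DirichletCharacter.LFunction χ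

/-- The zeros of `F` in the open critical strip with ordinate in `(T, 2T]`. -/
def zeros (F : ℂ → ℂ) (T : ℝ) : Set ℂ :=
  {s : ℂ | 0 < s.re ∧ s.re < 1 ∧ T < s.im ∧ s.im ≤ 2 * T ∧ F s = 0}

/-- The number of these zeros, counted with multiplicity. -/
noncomputable def N (F : ℂ → ℂ) (T : ℝ) : ℕ := ∑ᶠ s ∈ zeros F T, analyticOrderNatAt F s

/-- The number of distinct ones. -/
noncomputable def Nd (F : ℂ → ℂ) (T : ℝ) : ℕ := (zeros F T).ncard

/-- The `q⁻²`-weighted number of the primitive Dirichlet characters `χ` of conductor `q`,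
`X < q ≤ Y`, which have the property `S`. -/
noncomputable def mass (X Y : ℕ) (S : (q : ℕ) → DirichletCharacter ℂ q → Prop) : ℝ :=
  ∑ q ∈ Finset.Ioc X Y, (1 / (q : ℝ) ^ 2) *
    ({χ : DirichletCharacter ℂ q | χ.IsPrimitive ∧ S q χ}.ncard : ℝ)

theorem result (ε : ℝ) (hε : 0 < ε) : ∃ K η X0 : ℝ, 1 ≤ K ∧ 0 < η ∧ 1 ≤ X0 ∧
    ∀ (X Y : ℕ) (T : ℝ), X0 ≤ X → K * X ≤ Y → (Y : ℝ) ≤ (X : ℝ) ^ (1 + η) →
      (Real.log X) ^ 4 ≤ T → T ≤ (X : ℝ) ^ η →
      mass X Y (fun q χ => (Nd (Lfun q χ) T : ℝ) < 0.83625 * N (Lfun q χ) T) ≤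
        ε * mass X Y (fun _ _ => True) := by
  classical
  obtain ⟨K, η, X0, hK, hη, hX0, h⟩ := H385.ae_distinct ε hε
  refine ⟨K, η, X0, hK, hη, hX0, fun X Y T a1 a2 a3 a4 a5 => ?_⟩
  change H385.massS X Y _ ≤ ε * H385.massS X Y _
  rw [H385.massS_true, H385.massS_eq]
  exact h X Y T a1 a2 a3 a4 a5 _ (Finset.filter_subset _ _) (fun p hp => (Finset.mem_filter.mp hp).2)

end Pool.Agent.Results.MP_f259ea_nt.AlmostAllDistinct8362
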