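import Pool.Agent.H370R2.Expl3
import Pool.Agent.H370R2.Final
import Pool.Agent.H370R2.DirGood

/-!
# Distinct zeros of Dirichlet L-functions beyond the Montgomery-Taylor threshold

Unconditionally, for every modulus `q ≥ 1` and every primitive Dirichlet character `χ` modulo `q`
one has, for all large `T`, `N_d(T,2T) ≥ 0.8363 N(T,2T)` and
`N_d(T,2T) ≥ ((3 - c_MT⁻¹)/2 + 0.00005) N(T,2T)`.
-/

open Filter Topology

namespace Pool.Agent.Results.MP_f259ea_nt.BeyondMTDistinct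

/-- the nontrivial zeros of `L(s, χ)` with ordinate in `(T₁, T₂]` -/
def zeros {q : ℕ} [NeZero q] (χ : DirichletCharacter ℂ q) (T₁ T₂ : ℝ) : Set ℂ :=
  {s : ℂ | DirichletCharacter.LFunction χ s = 0 ∧ 0 < s.re ∧ s.re < 1 ∧ T₁ < s.im ∧ s.im ≤ T₂}

/-- the number of nontrivial zeros with ordinate in `(T₁, T₂]`, counted with multiplicity -/
noncomputable def N {q : ℕ} [NeZero q] (χ : DirichletCharacter ℂ q) (T₁ T₂ : ℝ) : ℕ :=
  ∑ᶠ s ∈ zeros χ T₁ T₂, analyticOrderNatAt (DirichletCharacter.LFunction χ) s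

/-- the number of distinct nontrivial zeros with ordinate in `(T₁, T₂]` -/
noncomputable def Nd {q : ℕ} [NeZero q] (χ : DirichletCharacter ℂ q) (T₁ T₂ : ℝ) : ℕ :=
  (zeros χ T₁ T₂).ncard

/-- the inverse `c_MT⁻¹ = 1/2 + cot(1/√2)/√2` of the Montgomery-Taylor constant -/
noncomputable def cMTinv : ℝ := 1 / 2 + Real.cot (1 / Real.sqrt 2) / Real.sqrt 2

theorem zeros_eq {q : ℕ} [NeZero q] (χ : DirichletCharacter ℂ q) (T₁ T₂ : ℝ) :
    zeros χ T₁ T₂ = H370.zset (DirichletCharacter.LFunction χ) T₁ T₂ := by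
  ext s
  simp only [zeros, H370.zset, Set.mem_ofPred_eq]
  tauto

/-- the sets of zeros that are counted are finite -/
theorem zeros_finite {q : ℕ} [NeZero q] (χ : DirichletCharacter ℂ q) (hχ : χ.IsPrimitive)
    (T₁ T₂ : ℝ) (h : 0 < T₁) : (zeros χ T₁ T₂).Finite := by
  rw [zeros_eq]
  exact H370.zset_finite' (H370.good_dirichlet χ hχ) T₁ T₂ h

theorem N_eq {q : ℕ} [NeZero q] (χ : DirichletCharacter ℂ q) (T₁ T₂ : ℝ) :
    N χ T₁ T₂ = H370.NN (DirichletCharacter.LFunction χ) T₁ T₂ := by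
  unfold N H370.NN H370.mult
  rw [zeros_eq]

theorem Nd_eq {q : ℕ} [NeZero q] (χ : DirichletCharacter ℂ q) (T₁ T₂ : ℝ) :
    Nd χ T₁ T₂ = H370.Nd (DirichletCharacter.LFunction χ) T₁ T₂ := by
  unfold Nd H370.Nd
  rw [zeros_eq]

/-- For every primitive Dirichlet character of every modulus, the number of distinct zeros is at
least 83.63 percent of the number of zeros counted with multiplicity (and at least the proportion
`(3 - c_MT⁻¹)/2 + 0.00005`). -/
theorem result (q : ℕ) [NeZero q] (χ : DirichletCharacter ℂ q) (hχ : χ.IsPrimitive) :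
    ∃ T₀ : ℝ, ∀ T : ℝ, T₀ ≤ T →
      (0.8363 : ℝ) * (N χ T (2 * T) : ℝ) ≤ (Nd χ T (2 * T) : ℝ) ∧
      ((3 - cMTinv) / 2 + 0.00005) * (N χ T (2 * T) : ℝ) ≤ (Nd χ T (2 * T) : ℝ) := by
  have hg := H370.good_dirichlet χ hχ
  obtain ⟨T1, hT1⟩ := H370.Expl.main_numeric (DirichletCharacter.LFunction χ) hg
  obtain ⟨T2, hT2⟩ := H370.Expl.main_explicit (DirichletCharacter.LFunction χ) hg 0.0001
    (by norm_num) (by norm_num)
  refine ⟨max T1 T2, fun T hT => ?_⟩
  have h1 := (hT1 T ((le_max_left _ _).trans hT)).2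
  have h2 := (hT2 T ((le_max_right _ _).trans hT)).2
  have h3 : (0 : ℝ) ≤ (N χ T (2 * T) : ℝ) := Nat.cast_nonneg _
  rw [← N_eq, ← Nd_eq] at h1 h2
  refine ⟨le_trans (mul_le_mul_of_nonneg_right (by norm_num) h3) h1,
    le_trans (le_of_eq ?_) h2⟩
  have h4 : cMTinv = H370.cMTinv := rfl
  rw [h4]
  ring

end Pool.Agent.Results.MP_f259ea_nt.BeyondMTDistinct
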