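import Pool.Agent.H385R2.FinD

/-!
Distinct zeros of the L-functions of all primitive Dirichlet characters with conductor in a
logarithmically long window.
-/

namespace Pool.Agent.Results.MP_f259ea_nt.FamilyDistinct9661

/-- The Dirichlet L-function of a character modulo `q` (the value for `q = 0` is never used). -/
noncomputable def Lfun (q : ℕ) (χ : DirichletCharacter ℂ q) : ℂ → ℂ :=
  if h : q = 0 then 0 else
    haveI : NeZero q := ⟨h⟩
    DirichletCharacter.LFunction χ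

/-- The zeros of `F` in the open critical strip with ordinate in `(T, 2T]`. -/
def zeros (F : ℂ → ℂ) (T : ℝ) : Set ℂ :=
  {s : ℂ | 0 < s.re ∧ s.re < 1 ∧ T < s.im ∧ s.im ≤ 2 * T ∧ F s = 0}

/-- The number of these zeros, counted with multiplicity. -/
noncomputable def N (F : ℂ → ℂ) (T : ℝ) : ℕ := ∑ᶠ s ∈ zeros F T, analyticOrderNatAt F s

/-- The number of distinct zeros among them. -/
noncomputable def Nd (F : ℂ → ℂ) (T : ℝ) : ℕ := (zeros F T).ncard

/-- The sum of `f q χ / q²` over all primitive Dirichlet characters `χ` of conductor `q`, `X < q ≤ Y`. -/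
noncomputable def fam (X Y : ℕ) (f : (q : ℕ) → DirichletCharacter ℂ q → ℕ) : ℝ :=
  ∑ q ∈ Finset.Ioc X Y, (1 / (q : ℝ) ^ 2) *
    ∑ᶠ χ : {χ : DirichletCharacter ℂ q // χ.IsPrimitive}, (f q χ : ℝ)

theorem result : ∃ K η X0 : ℝ, 1 ≤ K ∧ 0 < η ∧ 1 ≤ X0 ∧
    ∀ (X Y : ℕ) (T : ℝ), X0 ≤ X → K * X ≤ Y → (Y : ℝ) ≤ (X : ℝ) ^ (1 + η) →
      (Real.log X) ^ 2 ≤ T → T ≤ (X : ℝ) ^ η →
      0.9661 * fam X Y (fun q χ => N (Lfun q χ) T) ≤ fam X Y (fun q χ => Nd (Lfun q χ) T) := by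
  obtain ⟨K, η, X0, hK, hη, hX0, h⟩ := H385.stage2_final
  exact ⟨K, η, X0, hK, hη, hX0, fun X Y T a1 a2 a3 a4 a5 => (h X Y T a1 a2 a3 a4 a5).2⟩

end Pool.Agent.Results.MP_f259ea_nt.FamilyDistinct9661
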